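import Pool.Agent.N783.PQ.Sha

/-!
# From the triviality of the 2-Selmer group to the Tate-Shafarevich group

Project PQ (helper783), part SH7, adapted from `Pool.Agent.Y723.HJ.Cnt`.
-/

set_option autoImplicit false
set_option linter.all false

namespace Pool.Agent.N896.PQ

open Polynomial Ideal
open Pool.Agent.N783.PQ
open Pool.Agent.Y723.HJ (CR OddM HF clmap mapR CC mi bar nm cl lead ev val del exists_cl_mi halve_cl
  locConst_apply clmap_mi clmap_comp)

variable {g : ℕ} {a : Fin (2 * g) → ℤ}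

theorem galQB : IsGalois ℚ QB := by
  have h : @IsGalois ℚ _ QB _ (AlgebraicClosure.instAlgebra ℚ) := inferInstance
  convert h
  exact Subsingleton.elim _ _

lemma charQB : CharZero QB := algebraRat.charZero QB

/-- separability -/
theorem hf_of (hirr : Irreducible (fol a ℚ)) (L : Type) [Field L] [CharZero L] :
    HF (fol a L) where
  toOddM := instOddM a L
  sep := by
    have h := (hirr.separable).map (f := Rat.castHom L)
    rwa [fol_map] at h
  two := two_ne_zero

section maps

variable {F L : Type} [Field F] [Field L] [CharZero F] [CharZero L] [HF (fol a F)]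
  [HF (fol a L)]

lemma jmap_mi (φ : F →+* L) {u v : F[X]} (hu : u ≠ 0) :
    jmap a φ (Additive.ofMul (cl (mi (fol a F) u v))) =
      Additive.ofMul (cl (mi (fol a L) (u.map φ) (v.map φ))) :=
  congrArg Additive.ofMul (clmap_mi φ (fol_map a φ) hu)

lemma jmap_comp {E : Type} [Field E] [CharZero E] [HF (fol a E)] (φ : F →+* L) (ψ : L →+* E)
    (P : Jac a F) : jmap a ψ (jmap a φ P) = jmap a (ψ.comp φ) P :=
  congrArg Additive.ofMul (clmap_comp φ (fol_map a φ) ψ (fol_map a ψ) P.toMul)

end maps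

/-- halving -/
lemma halve {L : Type} [Field L] [IsAlgClosed L] [HF (fol a L)] (Q : Jac a L) :
    ∃ P : Jac a L, P + P = Q := by
  obtain ⟨c, hc⟩ := halve_cl Q.toMul
  refine ⟨Additive.ofMul c, ?_⟩
  rw [← ofMul_mul, ← pow_two, hc]
  rfl

lemma lc_map (p : QB[X]) : IsLocallyConstant (fun σ : GQ => p.map (σ : QB →+* QB)) := by
  haveI := galQB
  induction p using Polynomial.induction_on' with
  | add p q hp hq =>
    have h : (fun σ : GQ => (p + q).map (σ : QB →+* QB)) =
        (fun σ : GQ => p.map (σ : QB →+* QB)) + (fun σ : GQ => q.map (σ : QB →+* QB)) := by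
      funext σ
      rw [Pi.add_apply, Polynomial.map_add]
    rw [h]
    exact hp.add hq
  | monomial n c =>
    have h : (fun σ : GQ => (monomial n c).map (σ : QB →+* QB)) =
        (fun x : QB => monomial n x) ∘ (fun σ : GQ => σ c) := by
      funext σ
      rw [Polynomial.map_monomial]
      rfl
    rw [h]
    exact (locConst_apply c).comp _

lemma lc_act [HF (fol a QB)] (P : Jac a QB) : IsLocallyConstant (fun σ : GQ => act a σ P) := by
  haveI := charQB
  obtain ⟨u, v, hu, huv, h⟩ := exists_cl_mi P.toMul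
  have h' : P = Additive.ofMul (cl (mi (fol a QB) u v)) := by rw [h]; rfl
  have h2 : (fun σ : GQ => act a σ P) =
      (fun w : QB[X] × QB[X] => (Additive.ofMul (cl (mi (fol a QB) w.1 w.2)) : Jac a QB)) ∘
        (fun σ : GQ => (u.map (σ : QB →+* QB), v.map (σ : QB →+* QB))) := by
    funext σ
    rw [h']
    exact jmap_mi _ hu.ne_zero
  rw [h2]
  exact ((lc_map u).prodMk (lc_map v)).comp _

lemma jmap_sq {F L L' E : Type} [Field F] [Field L] [Field L'] [Field E] [CharZero F] [CharZero L]
    [CharZero L'] [CharZero E] [HF (fol a F)] [HF (fol a L)] [HF (fol a L')] [HF (fol a E)]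
    (φ : F →+* L) (ψ : L →+* E) (φ' : F →+* L') (ψ' : L' →+* E) (h : ∀ x, ψ (φ x) = ψ' (φ' x))
    (P : Jac a F) : jmap a ψ (jmap a φ P) = jmap a ψ' (jmap a φ' P) := by
  rw [jmap_comp, jmap_comp]
  have h' : ψ.comp φ = ψ'.comp φ' := RingHom.ext h
  rw [h']

lemma cob_loc (ha : Irreducible (fol a ℚ)) [HF (fol a QB)] (R : Jac a QB)
    (K : Type) [Field K] [Algebra ℚ K] : LocallyTrivial a K (fun σ => act a σ R - R) := by
  intro ι
  have hcQ := charQB
  haveI : CharZero K := algebraRat.charZero K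
  haveI : HF (fol a (AlgebraicClosure K)) := hf_of ha _
  refine ⟨jmap a (ι : QB →+* AlgebraicClosure K) R, fun τ σ hc => ?_⟩
  have h := jmap_sq (σ : QB →+* QB) (ι : QB →+* AlgebraicClosure K)
    (ι : QB →+* AlgebraicClosure K) (τ : AlgebraicClosure K →+* AlgebraicClosure K)
    (fun x => (hc x).symm) R
  have h2 := map_sub (jmap a (ι : QB →+* AlgebraicClosure K)) (act a σ R) R
  exact h2.trans (congrArg (fun z => z - jmap a (ι : QB →+* AlgebraicClosure K) R) h)

lemma act_mul [HF (fol a QB)] (σ τ : GQ) (R : Jac a QB) :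
    act a (σ * τ) R = act a σ (act a τ R) := by
  have hcQ := charQB
  have h := jmap_comp (τ : QB →+* QB) (σ : QB →+* QB) R
  exact h.symm

/-- coboundaries are trivial at all places -/
lemma cob_sha (ha : Irreducible (fol a ℚ)) [HF (fol a QB)] (R : Jac a QB) :
    IsShaCocycle a (fun σ => act a σ R - R) := by
  refine ⟨⟨(lc_act R).sub (IsLocallyConstant.const R), ?_⟩, fun p _ => cob_loc ha R _,
    cob_loc ha R _⟩
  intro σ τ
  show act a (σ * τ) R - R = (act a σ R - R) + act a σ (act a τ R - R)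
  rw [act_mul, map_sub]
  abel

/-- the cocycles of the proof -/
def GoodC (a : Fin (2 * g) → ℤ) (f : GQ → Jac a QB) : Prop :=
  IsShaCocycle a f ∧ ∀ σ, f σ + f σ = 0

/-- every class killed by two has a representative with values in the points of order two -/
lemma exists_good (ha : Irreducible (fol a ℚ)) [HF (fol a QB)] (c : Sha a) (hc : 2 • c = 0) :
    ∃ f : shaCocycles a, GoodC a f.1 ∧ QuotientAddGroup.mk f = c := by
  obtain ⟨f0, rfl⟩ := QuotientAddGroup.mk_surjective c
  have h1 : 2 • f0 ∈ (coboundaries a).addSubgroupOf (shaCocycles a) := by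
    rw [← QuotientAddGroup.eq_zero_iff]
    exact hc
  rw [AddSubgroup.mem_addSubgroupOf] at h1
  obtain ⟨Q, hQ⟩ := h1
  obtain ⟨R, hR⟩ := halve Q
  have hcob := cob_sha ha R
  have hcob' : (fun σ : GQ => act a σ R - R) ∈ shaCocycles a := hcob
  refine ⟨f0 - ⟨_, hcob'⟩, ⟨(shaCocycles a).sub_mem f0.2 hcob', fun σ => ?_⟩, ?_⟩
  · have h2 := hQ σ
    show (f0.1 σ - (act a σ R - R)) + (f0.1 σ - (act a σ R - R)) = 0
    have h3 : f0.1 σ + f0.1 σ = act a σ Q - Q := by
      rw [← h2, ← two_nsmul]; rfl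
    have h4 : (f0.1 σ - (act a σ R - R)) + (f0.1 σ - (act a σ R - R)) =
        (f0.1 σ + f0.1 σ) - (act a σ (R + R) - (R + R)) := by
      rw [map_add]; abel
    rw [h4, hR, h3, sub_self]
  · rw [QuotientAddGroup.eq, AddSubgroup.mem_addSubgroupOf]
    have e : (-(f0 - ⟨_, hcob'⟩) + f0 : shaCocycles a) =
        ⟨fun σ => act a σ R - R, hcob'⟩ := by abel
    rw [e]
    exact ⟨R, fun σ => rfl⟩

/-- the Kummer cocycle of a rational point -/
lemma exists_kum (ha : Irreducible (fol a ℚ)) [HF (fol a QB)] (P : JacQ a) :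
    ∃ H : Jac a QB, H + H = P.1 ∧ GoodC a (fun σ => act a σ H - H) := by
  obtain ⟨H, hH⟩ := halve P.1
  refine ⟨H, hH, cob_sha ha H, fun σ => ?_⟩
  show (act a σ H - H) + (act a σ H - H) = 0
  rw [sub_add_sub_comm, ← map_add, hH, P.2 σ, sub_self]

/-- the Galois group is transitive on the roots -/
lemma trans_roots (ha : Irreducible (fol a ℚ)) {α β : QB} (hα : (fol a QB).eval α = 0)
    (hβ : (fol a QB).eval β = 0) : ∃ σ : GQ, σ α = β := by
  haveI := galQB
  have hmap : (fol a ℚ).map (algebraMap ℚ QB) = fol a QB := fol_map a _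
  have key : ∀ x : QB, (fol a QB).eval x = 0 → fol a ℚ = minpoly ℚ x := by
    intro x hx
    apply minpoly.eq_of_irreducible_of_monic ha
    · rw [aeval_def, eval₂_eq_eval_map, hmap, hx]
    · exact (pol_monic a).map _
  have h : IsConjRoot ℚ α β := by
    unfold IsConjRoot
    rw [← key α hα, ← key β hβ]
  obtain ⟨σ, hσ⟩ := (isConjRoot_iff_exists_algEquiv).1 h
  exact ⟨σ⁻¹, by rw [← hσ]; exact σ.symm_apply_apply β⟩

lemma del_top {L : Type} [Field L] {f : L[X]} [HF f] (α : L) : del α (⊤ : Ideal (CR f)) = 1 := by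
  unfold del
  rw [Pool.Agent.Y723.HJ.nm_top]
  simp

/-- no rational point of order two -/
lemma no_two (h2 : S_RF) (h3 : S_RFM) (h4 : S_TWO) (ha : Irreducible (fol a ℚ)) [HF (fol a QB)]
    (P : Jac a QB) (hP : P + P = 0) (hr : ∀ σ : GQ, act a σ P = P) : P = 0 := by
  classical
  haveI := charQB
  obtain ⟨r1, r2, r3, r4, r5⟩ := h2 QB (fol a QB)
  obtain ⟨t1, t2⟩ := h4 QB (fol a QB)
  set T : ClassGroup (CR (fol a QB)) := P.toMul with hT
  have hT2 : T ^ 2 = 1 := by
    rw [pow_two]
    exact congrArg Additive.toMul hP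
  have hcl : cl (⊤ : Ideal (CR (fol a QB))) = 1 := by
    rw [Pool.Agent.Y723.HJ.cl_top]
  have htop : (⊤ : Ideal (CR (fol a QB))) ≠ ⊥ := top_ne_bot
  obtain ⟨s, hs⟩ := r1 T ⊤ htop (by rw [hcl, hT2])
  have hsq : ∀ α, (fol a QB).eval α = 0 → s α = 1 ∨ s α = -1 := by
    intro α hα
    have h := r4 T ⊤ s htop hs α hα
    rw [del_top] at h
    have h3 : (s α - 1) * (s α + 1) = 0 := by linear_combination h
    rcases mul_eq_zero.1 h3 with h4 | h4
    · exact Or.inl (sub_eq_zero.1 h4)
    · exact Or.inr (eq_neg_of_add_eq_zero_left h4)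
  have hinv : ∀ (σ : GQ) (α : QB), (fol a QB).eval α = 0 → s (σ α) = s α := by
    intro σ α hα
    have h := h3 QB QB (fol a QB) (fol a QB) (σ : QB →+* QB) (fol_map a _) T ⊤ s
      (fun x => σ (s (σ.symm x))) hs (by
        intro β _
        show σ (s (σ.symm (σ β))) = σ (s β)
        rw [σ.symm_apply_apply])
    have e1 : clmap (σ : QB →+* QB) (fol_map a _) T = T := congrArg Additive.toMul (hr σ)
    rw [e1, Ideal.map_top] at h
    have hσα : (fol a QB).eval (σ α) = 0 := by
      have h5 : (fol a QB).map (σ : QB →+* QB) = fol a QB := fol_map a _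
      have h6 := Polynomial.eval_map_apply (f := (σ : QB →+* QB)) (p := fol a QB) α
      rw [h5, hα, map_zero] at h6
      exact h6
    have h7 := r2 T ⊤ s _ htop hs h (σ α) hσα
    rw [h7]
    show σ (s (σ.symm (σ α))) = s α
    rw [σ.symm_apply_apply]
    rcases hsq α hα with h8 | h8 <;> rw [h8] <;> simp
  have hone : ∀ α, (fol a QB).eval α = 0 → s α = 1 := by
    intro α hα
    rcases hsq α hα with h8 | h8
    · exact h8
    exfalso
    have hconst : ∀ β ∈ (fol a QB).roots.toFinset, s β = -1 := by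
      intro β hβ
      have hβ' : (fol a QB).eval β = 0 := (mem_roots'.1 (Multiset.mem_toFinset.1 hβ)).2
      obtain ⟨σ, hσ⟩ := trans_roots ha hα hβ'
      rw [← hσ, hinv σ α hα, h8]
    have hprod := t1 T s hT2 hs
    rw [Finset.prod_congr rfl hconst, Finset.prod_const] at hprod
    have hsep : (fol a QB).Separable := (inferInstance : HF (fol a QB)).sep
    have hcard : (fol a QB).roots.toFinset.card = 2 * g + 1 := by
      rw [Multiset.toFinset_card_of_nodup (nodup_roots hsep),
        ← (IsAlgClosed.splits (fol a QB)).natDegree_eq_card_roots, fol_natDegree]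
    rw [hcard, Odd.neg_one_pow ⟨g, rfl⟩] at hprod
    have h11 : (2 : QB) = 0 := by linear_combination -hprod
    exact two_ne_zero h11
  have h9 := r5 T s hs hone
  exact congrArg Additive.ofMul h9

theorem sha (h1 : S_REP) (h2 : S_RF) (h3 : S_RFM) (h4 : S_TWO) : S_SHA := by
  intro g a hirr hsel
  haveI := charQB
  haveI : HF (fol a QB) := hf_of hirr _
  refine ⟨?_, ?_, ?_⟩
  · intro c hc
    obtain ⟨f, hf, rfl⟩ := exists_good hirr c hc
    obtain ⟨T, hT, hfT⟩ := h1 g a hirr hsel f.1 hf.1 hf.2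
    rw [QuotientAddGroup.eq_zero_iff, AddSubgroup.mem_addSubgroupOf]
    exact ⟨T, hfT⟩
  · intro P hP
    have hP' : P.1 + P.1 = 0 := by
      have := congrArg Subtype.val hP
      rw [two_nsmul] at this
      exact this
    apply Subtype.ext
    exact no_two h2 h3 h4 hirr P.1 hP' P.2
  · intro P
    obtain ⟨H, hH, hg⟩ := exists_kum hirr P
    obtain ⟨T, hT, hfT⟩ := h1 g a hirr hsel _ hg.1 hg.2
    refine ⟨⟨H - T, fun σ => ?_⟩, ?_⟩
    · have h5 : act a σ H - H = act a σ T - T := hfT σ
      rw [map_sub]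
      have h6 : act a σ H = act a σ T - T + H := by rw [← h5]; abel
      rw [h6]; abel
    · apply Subtype.ext
      rw [two_nsmul]
      show (H - T) + (H - T) = P.1
      rw [sub_add_sub_comm, hT, hH, sub_zero]

end Pool.Agent.N896.PQ
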